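import Pool.Agent.Q273.V.Stm

/-!
# Project V (helper273): the Borel-Cantelli frame and facts on minimal polynomials (helper149)
-/

set_option autoImplicit false

namespace Pool.Agent.Q149.V

open Q273.V Polynomial MeasureTheory

/-! ### The frame -/

/-- the exceptional set for the parameters `n`, `k`, `j` -/
def EE (s : ℕ) (ε c : ℝ) (n k j : ℕ) : Set ℝ :=
  {ξ | |ξ| ≤ n ∧ ∃ (f : ℤ[X]) (x : ℂ), 0 < f.leadingCoeff ∧ IsMin s f x ∧ (2 : ℝ) ^ k ≤ M f ∧
    M f < 2 ^ (k + 1) ∧ (2 : ℝ) ^ j ≤ dsc x ∧ dsc x < 2 ^ (j + 1) ∧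
    |aeval ξ f| ≤ M f ^ (-1 - ε) / dsc x ^ c}

theorem one_le_M {f : ℤ[X]} (hf : f ≠ 0) : 1 ≤ M f := one_le_mahlerMeasure_of_ne_zero hf

theorem M_neg (f : ℤ[X]) : M (-f) = M f := by
  unfold M
  rw [Polynomial.map_neg, ← neg_one_mul, mahlerMeasure_mul]
  have h : (-1 : ℂ[X]) = C (-1) := by simp
  rw [h, mahlerMeasure_const]
  simp

theorem isMin_neg {K : Type} [Field K] {s : ℕ} {f : ℤ[X]} {x : K} (h : IsMin s f x) :
    IsMin s (-f) x := by
  refine ⟨(Associated.neg_left (Associated.refl f)).irreducible_iff.mpr h.1, ?_, ?_⟩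
  · rw [natDegree_neg]; exact h.2.1
  · rw [map_neg, h.2.2, neg_zero]

/-- Northcott -/
theorem northcott (s : ℕ) (B : ℝ) : {f : ℤ[X] | f.natDegree ≤ s ∧ M f ≤ B}.Finite := by
  refine (finite_mahlerMeasure_le s (Real.toNNReal B)).subset ?_
  rintro f ⟨h1, h2⟩
  refine ⟨h1, h2.trans ?_⟩
  exact Real.le_coe_toNNReal B

theorem bc (hdle : S_DLE) (s : ℕ) (hs : 1 ≤ s) (ε c : ℝ)
    (h : ∀ n a : ℕ, ∃ (C η : ℝ) (k₀ : ℕ), 0 < C ∧ 0 < η ∧ ∀ k j : ℕ, k₀ ≤ k → j ≤ a * (k + 1) →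
      volume (EE s ε c n k j) ≤ ENNReal.ofReal (C * (2 : ℝ) ^ (-η * k))) :
    ∀ᵐ ξ : ℝ, {f : ℤ[X] | ∃ x : ℂ, IsMin s f x ∧
      |aeval ξ f| ≤ M f ^ (-1 - ε) / dsc x ^ c}.Finite := by
  obtain ⟨C₀, hC₀, hd⟩ := hdle s hs
  obtain ⟨a₀, ha₀⟩ := pow_unbounded_of_one_lt C₀ (one_lt_two (α := ℝ))
  set a := 2 * s - 2 + a₀ with ha
  have key : ∀ n : ℕ, ∀ᵐ ξ : ℝ, |ξ| ≤ n → {f : ℤ[X] | ∃ x : ℂ, 0 < f.leadingCoeff ∧ IsMin s f x ∧
      |aeval ξ f| ≤ M f ^ (-1 - ε) / dsc x ^ c}.Finite := by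
    intro n
    obtain ⟨C, η, k₀, hC, hη, hvol⟩ := h n a
    set G : ℕ → Set ℝ := fun k =>
      ⋃ j ∈ Finset.range (a * (k + k₀ + 1) + 1), EE s ε c n (k + k₀) j with hG
    have hGv : ∀ k, volume (G k) ≤
        ENNReal.ofReal (((a * (k + k₀ + 1) + 1 : ℕ) : ℝ) * (C * (2 : ℝ) ^ (-η * ((k + k₀ : ℕ) : ℝ)))) := by
      intro k
      refine (measure_biUnion_finset_le _ _).trans ?_
      refine (Finset.sum_le_sum fun j hj => hvol (k + k₀) j (Nat.le_add_left _ _)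
        (Nat.lt_succ_iff.mp (Finset.mem_range.mp hj))).trans ?_
      rw [Finset.sum_const, Finset.card_range, nsmul_eq_mul, ENNReal.ofReal_mul (Nat.cast_nonneg _),
        ENNReal.ofReal_natCast]
    have hsum : Summable (fun k : ℕ =>
        ((a * (k + k₀ + 1) + 1 : ℕ) : ℝ) * (C * (2 : ℝ) ^ (-η * ((k + k₀ : ℕ) : ℝ)))) := by
      have hr0 : 0 < (2 : ℝ) ^ (-η) := Real.rpow_pos_of_pos two_pos _
      have hr1 : (2 : ℝ) ^ (-η) < 1 := Real.rpow_lt_one_of_one_lt_of_neg one_lt_two (by linarith)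
      have hnorm : ‖(2 : ℝ) ^ (-η)‖ < 1 := by rw [Real.norm_of_nonneg hr0.le]; exact hr1
      have s1 := (summable_pow_mul_geometric_of_norm_lt_one 1 hnorm).mul_left (a * C * 2 ^ (-η * k₀))
      have s0 := (summable_pow_mul_geometric_of_norm_lt_one 0 hnorm).mul_left
        ((a * (k₀ + 1) + 1) * C * 2 ^ (-η * k₀))
      refine (s1.add s0).congr fun k => ?_
      have e : (2 : ℝ) ^ (-η * ((k + k₀ : ℕ) : ℝ)) = ((2 : ℝ) ^ (-η)) ^ k * 2 ^ (-η * k₀) := by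
        rw [← Real.rpow_natCast ((2 : ℝ) ^ (-η)) k, ← Real.rpow_mul two_pos.le,
          ← Real.rpow_add two_pos]
        congr 1
        push_cast
        ring
      rw [e]
      push_cast
      ring
    have hne : ∑' k, volume (G k) ≠ ⊤ := by
      refine ne_top_of_le_ne_top hsum.tsum_ofReal_ne_top (ENNReal.tsum_le_tsum hGv)
    filter_upwards [ae_eventually_notMem hne] with ξ hξ hξn
    obtain ⟨k₁, hk₁⟩ := Filter.eventually_atTop.mp hξ
    refine (northcott s ((2 : ℝ) ^ (k₀ + k₁ + 1))).subset ?_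
    rintro f ⟨x, hf0, hfx, hfe⟩
    refine ⟨hfx.2.1.le, ?_⟩
    have hfne : f ≠ 0 := hfx.1.ne_zero
    obtain ⟨k, hk1, hk2⟩ := exists_nat_pow_near (one_le_M hfne) (one_lt_two (α := ℝ))
    obtain ⟨hd1, hd2⟩ := hd f x hfx
    obtain ⟨j, hj1, hj2⟩ := exists_nat_pow_near hd1 (one_lt_two (α := ℝ))
    by_contra hlt
    rw [not_le] at hlt
    have hkk : k₀ + k₁ ≤ k := by
      have h1 : (2 : ℝ) ^ (k₀ + k₁ + 1) < 2 ^ (k + 1) := hlt.trans hk2
      have h2 := (pow_lt_pow_iff_right₀ (one_lt_two (α := ℝ))).mp h1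
      omega
    have hja : j < a * (k + 1) := by
      have h1 : (2 : ℝ) ^ j < 2 ^ (a * (k + 1)) := by
        have hMk : M f ^ (2 * s - 2) ≤ (2 ^ (k + 1)) ^ (2 * s - 2) :=
          pow_le_pow_left₀ (zero_le_one.trans (one_le_M hfne)) hk2.le _
        have hC2 : C₀ < (2 : ℝ) ^ (a₀ * (k + 1)) := by
          refine ha₀.trans_le (pow_le_pow_right₀ one_le_two ?_)
          exact Nat.le_mul_of_pos_right _ (Nat.succ_pos _)
        calc (2 : ℝ) ^ j ≤ dsc x := hj1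
          _ ≤ C₀ * M f ^ (2 * s - 2) := hd2
          _ ≤ C₀ * (2 ^ (k + 1)) ^ (2 * s - 2) := mul_le_mul_of_nonneg_left hMk hC₀.le
          _ < 2 ^ (a₀ * (k + 1)) * (2 ^ (k + 1)) ^ (2 * s - 2) :=
              mul_lt_mul_of_pos_right hC2 (by positivity)
          _ = 2 ^ (a * (k + 1)) := by
              rw [← pow_mul, ← pow_add]
              congr 1
              rw [ha]
              ring
      exact (pow_lt_pow_iff_right₀ (one_lt_two (α := ℝ))).mp h1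
    have hkeq : k - k₀ + k₀ = k := by omega
    apply hk₁ (k - k₀) (by omega)
    rw [hG]
    simp only [Set.mem_iUnion]
    refine ⟨j, ?_, ?_⟩
    · rw [Finset.mem_range, hkeq]
      omega
    · rw [hkeq]
      exact ⟨hξn, f, x, hf0, hfx, hk1, hk2, hj1, hj2, hfe⟩
  filter_upwards [ae_all_iff.mpr key] with ξ hξ
  obtain ⟨n, hn⟩ := exists_nat_ge |ξ|
  have hfin := hξ n hn
  refine (hfin.union (hfin.image (fun f => -f))).subset ?_
  rintro f ⟨x, hfx, hfe⟩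
  have hlc : f.leadingCoeff ≠ 0 := leadingCoeff_ne_zero.mpr hfx.1.ne_zero
  rcases lt_or_gt_of_ne hlc with hneg | hpos
  · right
    refine ⟨-f, ⟨x, ?_, isMin_neg hfx, ?_⟩, neg_neg f⟩
    · rw [leadingCoeff_neg]; linarith
    · rw [M_neg, map_neg, abs_neg]; exact hfe
  · left
    exact ⟨x, hpos, hfx, hfe⟩

/-! ### Minimal polynomials -/

section
variable {K : Type} [Field K] {s : ℕ}

theorem mi_irred {f : ℤ[X]} {x : K} (hs : 1 ≤ s) (h : IsMin s f x) :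
    Irreducible (f.map (Int.castRingHom ℚ)) ∧ f.IsPrimitive := by
  have hp : f.IsPrimitive := h.1.isPrimitive (by rw [h.2.1]; omega)
  exact ⟨(IsPrimitive.Int.irreducible_iff_irreducible_map_cast hp).mp h.1, hp⟩

variable [CharZero K]

theorem mi_aeval {f : ℤ[X]} {x : K} (h : IsMin s f x) :
    aeval x (f.map (Int.castRingHom ℚ)) = 0 := by
  rw [← h.2.2]
  exact aeval_map_algebraMap ℚ x f

theorem mi_minpoly {f : ℤ[X]} {x : K} (hs : 1 ≤ s) (h : IsMin s f x) :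
    f.map (Int.castRingHom ℚ) * C (f.map (Int.castRingHom ℚ)).leadingCoeff⁻¹ = minpoly ℚ x :=
  minpoly.eq_of_irreducible (mi_irred hs h).1 (mi_aeval h)

theorem mi_unique {f g : ℤ[X]} {x : K} (hs : 1 ≤ s) (hf : IsMin s f x) (hg : IsMin s g x)
    (hf0 : 0 < f.leadingCoeff) (hg0 : 0 < g.leadingCoeff) : f = g := by
  have key : ∀ f g : ℤ[X], IsMin s f x → IsMin s g x → f ∣ g := by
    intro f g hf hg
    rw [IsPrimitive.Int.dvd_iff_map_cast_dvd_map_cast f g (mi_irred hs hf).2]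
    have h1 := mi_minpoly hs hf
    have h3 : f.map (Int.castRingHom ℚ) ∣ minpoly ℚ x := Dvd.intro _ h1
    have h4 : minpoly ℚ x ∣ g.map (Int.castRingHom ℚ) := minpoly.dvd ℚ x (mi_aeval hg)
    exact h3.trans h4
  obtain ⟨u, hu⟩ := associated_of_dvd_dvd (key f g hf hg) (key g f hg hf)
  obtain ⟨r, hr, hru⟩ := Polynomial.isUnit_iff.mp u.isUnit
  rcases Int.isUnit_iff.mp hr with h1 | h1
  · rw [← hu, ← hru, h1, map_one, mul_one]
  · exfalso
    rw [← hu, ← hru, h1, map_neg, map_one, mul_neg, mul_one, leadingCoeff_neg] at hg0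
    linarith

theorem mi_integral {f : ℤ[X]} {x : K} (hs : 1 ≤ s) (h : IsMin s f x) : IsIntegral ℚ x := by
  have h1 : IsAlgebraic ℚ x := ⟨_, (mi_irred hs h).1.ne_zero, mi_aeval h⟩
  exact h1.isIntegral

end

section
variable {s : ℕ}

theorem mi_numberField {f : ℤ[X]} {x : ℂ} (hs : 1 ≤ s) (h : IsMin s f x) :
    NumberField (IntermediateField.adjoin ℚ ({x} : Set ℂ)) where
  to_charZero := inferInstance
  to_finiteDimensional := IntermediateField.adjoin.finiteDimensional (mi_integral hs h)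

theorem mi_finrank {f : ℤ[X]} {x : ℂ} (hs : 1 ≤ s) (h : IsMin s f x) :
    Module.finrank ℚ (IntermediateField.adjoin ℚ ({x} : Set ℂ)) = s := by
  rw [IntermediateField.adjoin.finrank (mi_integral hs h), ← mi_minpoly hs h,
    natDegree_mul_leadingCoeff_self_inv,
    natDegree_map_eq_of_injective (RingHom.injective_int _), h.2.1]

theorem dsc_eq (x : ℂ) [hN : NumberField (IntermediateField.adjoin ℚ ({x} : Set ℂ))] :
    dsc x = |(NumberField.discr (IntermediateField.adjoin ℚ ({x} : Set ℂ)) : ℝ)| := by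
  rw [dsc, dif_pos hN]

theorem mi_dsc_conj {f : ℤ[X]} {x w : ℂ} (hs : 1 ≤ s) (h : IsMin s f x) (h' : IsMin s f w) :
    dsc x = dsc w := by
  have := mi_numberField hs h
  have := mi_numberField hs h'
  rw [dsc_eq, dsc_eq]
  have hm : minpoly ℚ x = minpoly ℚ w := by rw [← mi_minpoly hs h, mi_minpoly hs h']
  have haux : ∀ p q : ℚ[X], p = q → Nonempty (AdjoinRoot p ≃ₐ[ℚ] AdjoinRoot q) := by
    rintro p q rfl
    exact ⟨AlgEquiv.refl⟩
  obtain ⟨e⟩ := haux _ _ hm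
  have e' := ((IntermediateField.adjoinRootEquivAdjoin ℚ (mi_integral hs h)).symm.trans e).trans
    (IntermediateField.adjoinRootEquivAdjoin ℚ (mi_integral hs h'))
  rw [NumberField.discr_eq_discr_of_algEquiv _ e']

/-- the generator as an element of its field -/
def gen (x : ℂ) : IntermediateField.adjoin ℚ ({x} : Set ℂ) :=
  ⟨x, IntermediateField.mem_adjoin_simple_self ℚ x⟩

theorem mi_gen {L : IntermediateField ℚ ℂ} {f : ℤ[X]} (z : L) :
    IsMin s f z ↔ IsMin s f (z : ℂ) := by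
  have h : aeval (z : ℂ) f = ((aeval z f : L) : ℂ) := aeval_algebraMap_apply ℂ z f
  unfold Q273.V.IsMin
  rw [h]
  constructor
  · rintro ⟨h1, h2, h3⟩
    exact ⟨h1, h2, by rw [h3]; rfl⟩
  · rintro ⟨h1, h2, h3⟩
    exact ⟨h1, h2, Subtype.ext h3⟩

end

/-- the sets of fields are finite -/
theorem fld_finite {s : ℕ} {e δ C : ℝ}
    (h : ∀ (Y : ℝ) (F : Finset (IntermediateField ℚ ℂ)), 1 ≤ Y →
    (∀ K ∈ F, ∃ _ : NumberField K, Module.finrank ℚ K = s ∧ |(NumberField.discr K : ℝ)| ≤ Y) →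
      (F.card : ℝ) ≤ C * Y ^ (e + δ)) (Y : ℝ) (hY : 1 ≤ Y) :
    {K : IntermediateField ℚ ℂ | ∃ _ : NumberField K, Module.finrank ℚ K = s ∧
      |(NumberField.discr K : ℝ)| ≤ Y}.Finite := by
  by_contra hinf
  obtain ⟨N, hN⟩ := exists_nat_gt (C * Y ^ (e + δ))
  obtain ⟨F, hF, hFc⟩ := Set.Infinite.exists_subset_card_eq hinf N
  have h1 := h Y F hY (fun K hK => hF hK)
  rw [hFc] at h1
  exact not_lt.mpr h1 hN

end Pool.Agent.Q149.V
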