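import Pool.Agent.Q149.V.BC

/-!
# Project V (helper273), job FIN3: cubic numbers near almost every real number (helper149)
-/

set_option autoImplicit false

namespace Pool.Agent.Q149.V

open Q273.V Polynomial MeasureTheory

/-- the sum over the generators of one field -/
theorem sum_field (n : ℕ) (T B : ℝ) (K : IntermediateField ℚ ℂ) [NumberField K]
    (hsuma : ∀ (σ : K →+* ℂ) (F : Finset K) (f : K → ℤ[X]),
      (∀ x ∈ F, IsMin 3 (f x) x ∧ M (f x) ≤ T ∧ ‖σ x‖ ≤ n) → ∑ x ∈ F, 1 / dv (f x) (σ x) ≤ B)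
    (S : Finset (Σ _ : ℤ[X], ℂ))
    (hS : ∀ p ∈ S, IsMin 3 p.1 p.2 ∧ 0 < p.1.leadingCoeff ∧ M p.1 ≤ T ∧ ‖p.2‖ ≤ n ∧ p.2 ∈ K) :
    ∑ p ∈ S, 1 / dv p.1 p.2 ≤ B := by
  classical
  set F : Finset K := (S.image (fun p => p.2)).subtype (fun w => w ∈ K) with hF
  have hmemF : ∀ z : K, z ∈ F ↔ ∃ p ∈ S, p.2 = z := by
    intro z
    rw [hF, Finset.mem_subtype, Finset.mem_image]
  set fz : K → ℤ[X] := fun z => if h : ∃ p ∈ S, p.2 = z then h.choose.1 else 0 with hfz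
  have hfzS : ∀ z ∈ F, (⟨fz z, (z : ℂ)⟩ : Σ _ : ℤ[X], ℂ) ∈ S := by
    intro z hz
    have h := (hmemF z).mp hz
    have h1 := h.choose_spec
    rw [hfz]
    simp only
    rw [dif_pos h]
    have h2 : (⟨h.choose.1, (z : ℂ)⟩ : Σ _ : ℤ[X], ℂ) = h.choose :=
      Sigma.ext rfl (heq_of_eq h1.2.symm)
    rw [h2]
    exact h1.1
  have h1 := hsuma (algebraMap K ℂ) F fz (fun z hz => by
    have h2 := hS _ (hfzS z hz)
    exact ⟨(mi_gen z).mpr h2.1, h2.2.2.1, h2.2.2.2.1⟩)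
  refine le_trans (le_of_eq ?_) h1
  refine Finset.sum_bij (fun p hp => (⟨p.2, (hS p hp).2.2.2.2⟩ : K)) ?_ ?_ ?_ ?_
  · intro p hp
    exact (hmemF _).mpr ⟨p, hp, rfl⟩
  · intro p hp p' hp' hpp
    have h2 : p.2 = p'.2 := congrArg Subtype.val hpp
    have h3 := (hS p' hp').1
    rw [← h2] at h3
    have h4 : p.1 = p'.1 := mi_unique (by norm_num) (hS p hp).1 h3 (hS p hp).2.1 (hS p' hp').2.1
    exact Sigma.ext h4 (heq_of_eq h2)
  · intro z hz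
    exact ⟨_, hfzS z hz, rfl⟩
  · intro p hp
    have hz : (⟨p.2, (hS p hp).2.2.2.2⟩ : K) ∈ F := (hmemF _).mpr ⟨p, hp, rfl⟩
    have h2 := hS _ (hfzS _ hz)
    have h4 : p.1 = fz ⟨p.2, (hS p hp).2.2.2.2⟩ :=
      mi_unique (by norm_num) (hS p hp).1 h2.1 (hS p hp).2.1 h2.2.1
    show 1 / dv p.1 p.2 = 1 / dv (fz ⟨p.2, (hS p hp).2.2.2.2⟩) p.2
    rw [← h4]

/-- the measure of the exceptional sets -/
theorem ee_meas3 (hsuma : S_SUMA) (hmeas : S_MEAS3) (hfld : S_FLD3) (ε : ℝ) (hε : 0 < ε)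
    (n a : ℕ) :
    ∃ (C η : ℝ) (k₀ : ℕ), 0 < C ∧ 0 < η ∧ ∀ k j : ℕ, k₀ ≤ k → j ≤ a * (k + 1) →
      volume (EE 3 ε 1 n k j) ≤ ENNReal.ofReal (C * (2 : ℝ) ^ (-η * k)) := by
  classical
  have ha0 : (0 : ℝ) ≤ a := Nat.cast_nonneg a
  set δ : ℝ := ε / (4 * (a + 1)) with hδ
  have hδpos : 0 < δ := by positivity
  obtain ⟨C₁, hC₁, hF⟩ := hfld δ hδpos
  obtain ⟨C₂, hC₂, hV⟩ := hsuma (n + 1) (ε / 4) (by positivity)
  obtain ⟨k₀, hk₀⟩ := exists_nat_ge (4 / ε)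
  set E₀ : ℝ := a * δ + 2 + δ + ε / 4 with hE₀
  refine ⟨8 * C₁ * C₂ * 2 ^ E₀, ε / 2, k₀, by positivity, by positivity, ?_⟩
  intro k j hk hj
  have hkε : 4 ≤ k * ε := by
    have h1 : 4 / ε ≤ k := hk₀.trans (by exact_mod_cast hk)
    rwa [div_le_iff₀ hε] at h1
  have hjr : (j : ℝ) ≤ a * (k + 1) := by exact_mod_cast hj
  have hk0 : (0 : ℝ) ≤ k := Nat.cast_nonneg k
  have hj0 : (0 : ℝ) ≤ j := Nat.cast_nonneg j
  set Y : ℝ := (2 : ℝ) ^ ((j : ℝ) + 1) with hY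
  have hY1 : 1 ≤ Y := Real.one_le_rpow one_le_two (by linarith)
  set T : ℝ := (2 : ℝ) ^ ((k : ℝ) + 1) with hT
  have hT1 : 1 ≤ T := Real.one_le_rpow one_le_two (by linarith)
  have hT' : T = (2 : ℝ) ^ (k + 1) := by
    rw [hT, ← Real.rpow_natCast]
    push_cast
    rfl
  have hY' : Y = (2 : ℝ) ^ (j + 1) := by
    rw [hY, ← Real.rpow_natCast]
    push_cast
    rfl
  set κ : ℝ := (2 : ℝ) ^ (-(k * (1 + ε)) - j) with hκ
  have hκ0 : 0 < κ := Real.rpow_pos_of_pos two_pos _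
  have hκT : 8 * κ * T ≤ 1 := by
    have e : 8 * κ * T = (2 : ℝ) ^ (4 - k * ε - j) := by
      have e8 : (8 : ℝ) = 2 ^ (3 : ℝ) := by norm_num
      rw [hκ, hT, e8, ← Real.rpow_add two_pos, ← Real.rpow_add two_pos]
      congr 1
      ring
    rw [e]
    refine Real.rpow_le_one_of_one_le_of_nonpos one_le_two ?_
    linarith
  -- the polynomials
  set Ps : Set ℤ[X] := {f | 0 < f.leadingCoeff ∧ ∃ x : ℂ, IsMin 3 f x ∧ (2 : ℝ) ^ k ≤ M f ∧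
    M f < 2 ^ (k + 1) ∧ (2 : ℝ) ^ j ≤ dsc x ∧ dsc x < 2 ^ (j + 1)} with hPs
  have hPfin : Ps.Finite := by
    refine (northcott 3 ((2 : ℝ) ^ (k + 1))).subset ?_
    rintro f ⟨_, x, hfx, _, hM2, _, _⟩
    exact ⟨hfx.2.1.le, hM2.le⟩
  set P := hPfin.toFinset with hP
  have hmemP : ∀ f, f ∈ P ↔ f ∈ Ps := fun f => Set.Finite.mem_toFinset hPfin
  set R : ℤ[X] → Finset ℂ := fun f =>
    (f.map (Int.castRingHom ℂ)).roots.toFinset.filter (fun w => ‖w‖ ≤ n + 1) with hR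
  have hmemR : ∀ f ∈ P, ∀ w ∈ R f, IsMin 3 f w ∧ ‖w‖ ≤ n + 1 := by
    intro f hf w hw
    obtain ⟨_, x, hfx, _⟩ := (hmemP f).mp hf
    obtain ⟨h1, h2⟩ := Finset.mem_filter.mp hw
    rw [Multiset.mem_toFinset, mem_roots'] at h1
    refine ⟨⟨hfx.1, hfx.2.1, ?_⟩, h2⟩
    have h3 := h1.2
    rw [IsRoot.def, eval_map] at h3
    exact h3
  have hcover : EE 3 ε 1 n k j ⊆ ⋃ f ∈ P, {ξ : ℝ | |ξ| ≤ n ∧ |aeval ξ f| ≤ κ} := by
    rintro ξ ⟨hξ, f, x, hf0, hfx, hM1, hM2, hd1, hd2, hfe⟩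
    rw [Set.mem_iUnion₂]
    refine ⟨f, (hmemP f).mpr ⟨hf0, x, hfx, hM1, hM2, hd1, hd2⟩, hξ, hfe.trans ?_⟩
    have h2k : (0 : ℝ) < 2 ^ k := by positivity
    have h2j : (0 : ℝ) < 2 ^ j := by positivity
    have h1 : M f ^ (-1 - ε) ≤ ((2 : ℝ) ^ k) ^ (-1 - ε) :=
      Real.rpow_le_rpow_of_nonpos h2k hM1 (by linarith)
    have h3 : κ = ((2 : ℝ) ^ k) ^ (-1 - ε) / (2 : ℝ) ^ j := by
      rw [hκ, ← Real.rpow_natCast, ← Real.rpow_natCast, ← Real.rpow_mul two_pos.le,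
        ← Real.rpow_sub two_pos]
      congr 1
      ring
    rw [h3, Real.rpow_one]
    exact div_le_div₀ (by positivity) h1 (by positivity) hd1
  refine (measure_mono hcover).trans ((measure_biUnion_finset_le _ _).trans ?_)
  have hPm : ∀ f ∈ P, volume {ξ : ℝ | |ξ| ≤ n ∧ |aeval ξ f| ≤ κ} ≤
      ENNReal.ofReal (8 * κ * ∑ w ∈ R f, 1 / dv f w) := by
    intro f hf
    obtain ⟨_, x, hfx, _, hM2, _⟩ := (hmemP f).mp hf
    have h8 : 8 * κ * M f ≤ 1 := by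
      refine le_trans (mul_le_mul_of_nonneg_left ?_ (by positivity)) hκT
      rw [hT']
      exact hM2.le
    exact hmeas n f x κ hfx hκ0 h8
  refine (Finset.sum_le_sum hPm).trans ?_
  have hdvnn : ∀ (f : ℤ[X]) (w : ℂ), 0 ≤ 1 / dv f w := fun f w => by
    unfold dv
    positivity
  rw [← ENNReal.ofReal_sum_of_nonneg (fun f _ => mul_nonneg (by positivity)
    (Finset.sum_nonneg fun w _ => hdvnn f w)), ← Finset.mul_sum]
  refine ENNReal.ofReal_le_ofReal ?_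
  -- the double sum
  set S := P.sigma R with hS
  have hsum : ∑ f ∈ P, ∑ w ∈ R f, 1 / dv f w = ∑ p ∈ S, 1 / dv p.1 p.2 := by
    rw [hS, Finset.sum_sigma]
  set fl : (Σ _ : ℤ[X], ℂ) → IntermediateField ℚ ℂ :=
    fun p => IntermediateField.adjoin ℚ ({p.2} : Set ℂ) with hfl
  set 𝒦 := S.image fl with h𝒦
  have hSp : ∀ p ∈ S, p.1 ∈ P ∧ IsMin 3 p.1 p.2 ∧ ‖p.2‖ ≤ n + 1 := by
    intro p hp
    obtain ⟨h1, h2⟩ := Finset.mem_sigma.mp hp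
    exact ⟨h1, hmemR p.1 h1 p.2 h2⟩
  have h𝒦mem : ∀ K ∈ 𝒦, ∃ _ : NumberField K, Module.finrank ℚ K = 3 ∧
      |(NumberField.discr K : ℝ)| ≤ Y := by
    intro K hK
    obtain ⟨p, hp, rfl⟩ := Finset.mem_image.mp hK
    obtain ⟨hpP, hpm, _⟩ := hSp p hp
    have hnf := mi_numberField (by norm_num) hpm
    refine ⟨hnf, mi_finrank (by norm_num) hpm, ?_⟩
    obtain ⟨_, x, hfx, _, _, _, hd2⟩ := (hmemP p.1).mp hpP
    have hdeq := dsc_eq p.2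
    have hc := mi_dsc_conj (by norm_num) hfx hpm
    show |(NumberField.discr (IntermediateField.adjoin ℚ ({p.2} : Set ℂ)) : ℝ)| ≤ Y
    rw [← hdeq, ← hc, hY']
    exact hd2.le
  have h𝒦card : (𝒦.card : ℝ) ≤ C₁ * Y ^ (1 + δ) := hF Y 𝒦 hY1 h𝒦mem
  have hinner : ∀ K ∈ 𝒦, ∑ p ∈ S.filter (fun p => fl p = K), 1 / dv p.1 p.2 ≤
      C₂ * T ^ (1 + ε / 4) := by
    intro K hK
    obtain ⟨hN, hK3, _⟩ := h𝒦mem K hK
    refine sum_field (n + 1) T _ K (fun σ F f hf => hV K hK3 σ T F f hT1 hf) _ ?_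
    intro p hp
    obtain ⟨hpS, hpK⟩ := Finset.mem_filter.mp hp
    obtain ⟨hpP, hpm, hpn⟩ := hSp p hpS
    obtain ⟨h0, x, hfx, _, hM2, _⟩ := (hmemP p.1).mp hpP
    refine ⟨hpm, h0, ?_, ?_, ?_⟩
    · rw [hT']; exact hM2.le
    · push_cast; exact hpn
    · rw [← hpK]
      exact IntermediateField.mem_adjoin_simple_self ℚ p.2
  have hdouble : ∑ f ∈ P, ∑ w ∈ R f, 1 / dv f w ≤ (C₁ * Y ^ (1 + δ)) * (C₂ * T ^ (1 + ε / 4)) := by
    rw [hsum, ← Finset.sum_fiberwise_of_maps_to (g := fl) (t := 𝒦)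
      (fun p hp => Finset.mem_image_of_mem fl hp)]
    refine (Finset.sum_le_sum hinner).trans ?_
    rw [Finset.sum_const, nsmul_eq_mul]
    exact mul_le_mul_of_nonneg_right h𝒦card (by positivity)
  calc 8 * κ * ∑ f ∈ P, ∑ w ∈ R f, 1 / dv f w
      ≤ 8 * κ * ((C₁ * Y ^ (1 + δ)) * (C₂ * T ^ (1 + ε / 4))) :=
        mul_le_mul_of_nonneg_left hdouble (by positivity)
    _ = 8 * C₁ * C₂ * 2 ^ ((-(k * (1 + ε)) - j) + (((j : ℝ) + 1) * (1 + δ) +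
        ((k : ℝ) + 1) * (1 + ε / 4))) := by
        rw [hκ, hY, hT, ← Real.rpow_mul two_pos.le, ← Real.rpow_mul two_pos.le,
          Real.rpow_add two_pos (-(k * (1 + ε)) - j), Real.rpow_add two_pos (((j : ℝ) + 1) * (1 + δ))]
        ring
    _ ≤ 8 * C₁ * C₂ * 2 ^ (E₀ + -(ε / 2) * k) := by
        refine mul_le_mul_of_nonneg_left ?_ (by positivity)
        refine Real.rpow_le_rpow_of_exponent_le one_le_two ?_
        have e2 : δ * (a + 1) = ε / 4 := by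
          rw [hδ]
          field_simp
        have e4 : (j : ℝ) * δ ≤ a * (k + 1) * δ := mul_le_mul_of_nonneg_right hjr hδpos.le
        have e5 : a * k * δ ≤ k * (ε / 4) := by
          rw [← e2]
          nlinarith [mul_nonneg hk0 hδpos.le]
        rw [hE₀]
        nlinarith [e4, e5]
    _ = 8 * C₁ * C₂ * 2 ^ E₀ * 2 ^ (-(ε / 2) * k) := by
        rw [Real.rpow_add two_pos]
        ring

/-- **job FIN3** -/
theorem fin3 (hsuma : S_SUMA) (hmeas : S_MEAS3) (hfld : S_FLD3) (hdle : S_DLE) : S_FIN3 := by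
  intro ε hε
  have h := bc hdle 3 (by norm_num) ε 1 (ee_meas3 hsuma hmeas hfld ε hε)
  simp only [Real.rpow_one] at h
  exact h

end Pool.Agent.Q149.V
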