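import Pool.Agent.Q273.V.Stm

/-!
# Project V (helper273), job CELLA: the sum over one cell of generators of a cubic field (helper149)
-/

set_option autoImplicit false

namespace Pool.Agent.Q149.V

open Q273.V Polynomial

/-- the difference of two values of a unimodular substitution -/
theorem mob_sub (a b p q r t : ℂ) (h : p * t - q * r = 1) (ha : r * a + t ≠ 0)
    (hb : r * b + t ≠ 0) :
    (p * a + q) / (r * a + t) - (p * b + q) / (r * b + t) = (a - b) / ((r * a + t) * (r * b + t)) := by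
  rw [div_sub_div _ _ ha hb, div_eq_div_iff (mul_ne_zero ha hb) (mul_ne_zero ha hb)]
  linear_combination (a - b) * ((r * a + t) * (r * b + t)) * h

theorem mob_dir (a p q r t : ℂ) (h : p * t - q * r = 1) (ha : r * a + t ≠ 0) :
    p - (p * a + q) / (r * a + t) * r = 1 / (r * a + t) := by
  rw [eq_div_iff ha, sub_mul, mul_right_comm, div_mul_cancel₀ _ ha]
  linear_combination h

/-- integers in a window -/
theorem card_window (S : Finset ℤ) (n : ℕ) (c : ℝ) (h : ∀ k ∈ S, |(c + k : ℝ)| ≤ n) :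
    S.card ≤ 2 * n + 1 := by
  have h1 : S ⊆ Finset.Icc ⌈(-n - c : ℝ)⌉ ⌊(n - c : ℝ)⌋ := by
    intro k hk
    have h2 := abs_le.mp (h k hk)
    rw [Finset.mem_Icc]
    refine ⟨Int.ceil_le.mpr (by linarith [h2.1]), Int.le_floor.mpr (by linarith [h2.2])⟩
  refine (Finset.card_le_card h1).trans ?_
  rw [Int.card_Icc]
  have h3 : (⌊(n - c : ℝ)⌋ : ℝ) ≤ n - c := Int.floor_le _
  have h4 : (-n - c : ℝ) ≤ ⌈(-n - c : ℝ)⌉ := Int.le_ceil _
  have h5 : ((⌊(n - c : ℝ)⌋ + 1 - ⌈(-n - c : ℝ)⌉ : ℤ) : ℝ) ≤ ((2 * n + 1 : ℕ) : ℤ) := by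
    push_cast
    linarith
  have h6 := Int.cast_le.mp h5
  omega

section
variable {K : Type} [Field K]

/-- elements with the same image and the same first column differ by an integer -/
theorem fiber_int (x y : K) (p q q' r t t' : ℤ) (h : p * t - q * r = 1) (h' : p * t' - q' * r = 1)
    (hx : (r : K) * x + t ≠ 0) (hy : (r : K) * y + t' ≠ 0)
    (hxy : ((p : K) * x + q) / (r * x + t) = ((p : K) * y + q') / (r * y + t')) :
    ∃ k : ℤ, y = x + k := by
  have hK : (p : K) * t - q * r = 1 := by exact_mod_cast congrArg (Int.cast : ℤ → K) h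
  have hK' : (p : K) * t' - q' * r = 1 := by exact_mod_cast congrArg (Int.cast : ℤ → K) h'
  refine ⟨-((q' - q) * t - (t' - t) * q), ?_⟩
  push_cast
  rw [div_eq_div_iff hx hy] at hxy
  -- `(p x + q) (r y + t') = (p y + q') (r x + t)`
  have h1 : x * (1 : K) - y * 1 - ((q' : K) * t - q * t') = 0 := by
    linear_combination hxy - x * hK' + y * hK
  linear_combination -h1

end

/-- the product over the three embeddings -/
theorem prod_three {K : Type} [Field K] [NumberField K] (e : Fin 3 ≃ (K →+* ℂ))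
    (g : (K →+* ℂ) → ℝ) : ∏ σ : K →+* ℂ, g σ = g (e 0) * g (e 1) * g (e 2) := by
  rw [← Equiv.prod_comp e g, Fin.prod_univ_three]

open scoped Classical in
theorem prod_two {K : Type} [Field K] [NumberField K] (e : Fin 3 ≃ (K →+* ℂ))
    (g : (K →+* ℂ) → ℝ) : ∏ τ ∈ Finset.univ.filter (· ≠ e 0), g τ = g (e 1) * g (e 2) := by
  rw [Finset.prod_filter, ← Equiv.prod_comp e (fun a => if a ≠ e 0 then g a else 1),
    Fin.prod_univ_three, if_neg (fun h => h rfl), if_pos, if_pos, one_mul]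
  · intro h
    exact absurd (e.injective h) (by decide)
  · intro h
    exact absurd (e.injective h) (by decide)

/-- **job CELLA** -/
theorem cella (hsep : S_SEP) (hmin : S_MIN) (hmob : S_MOB) (hcnt : S_CNT) (hpack : S_PACK) :
    S_CELLA := by
  classical
  obtain ⟨Cp, hCp, hpk⟩ := hpack
  intro n
  refine ⟨Cp * 1024 * 24 * (2 * n + 1) * 16 * (n + 5), by positivity, ?_⟩
  intro K _ _ hK3 e he F f p q r t T A D Y hT hA hD hY hF
  rcases F.eq_empty_or_nonempty with rfl | ⟨x₀, hx₀⟩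
  · rw [Finset.sum_empty]
    positivity
  -- the images
  set φ : K → K := fun x => ((p x : K) * x + q x) / (r x * x + t x) with hφ
  have hden : ∀ x ∈ F, (r x : K) * x + t x ≠ 0 := fun x hx =>
    (hmob K 3 x (f x) (p x) (q x) (r x) (t x) (by norm_num) hK3 (hF x hx).1
      (hF x hx).2.2.2.2.2.2.1.1).1
  have heden : ∀ x ∈ F, ∀ i, (r x : ℂ) * e i x + t x ≠ 0 := by
    intro x hx i h0
    apply hden x hx
    apply (e i).injective
    rw [map_add, map_mul, map_intCast, map_intCast, map_zero]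
    exact h0
  have hdetC : ∀ x ∈ F, (p x : ℂ) * t x - q x * r x = 1 := fun x hx => by
    exact_mod_cast congrArg (Int.cast : ℤ → ℂ) (hF x hx).2.2.2.2.2.2.1.1
  have heφ : ∀ x i, e i (φ x) = ((p x : ℂ) * e i x + q x) / (r x * e i x + t x) := by
    intro x i
    rw [hφ]
    simp only [map_div₀, map_add, map_mul, map_intCast]
  have hsubφ : ∀ x ∈ F, ∀ i, e 0 (φ x) - e i (φ x) =
      (e 0 x - e i x) / (((r x : ℂ) * e 0 x + t x) * (r x * e i x + t x)) := by
    intro x hx i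
    rw [heφ, heφ]
    exact mob_sub _ _ _ _ _ _ (hdetC x hx) (heden x hx 0) (heden x hx i)
  have hy : ∀ x ∈ F, ∀ i, Y i ≤ ‖(r x : ℂ) * e i x + t x‖ ∧ ‖(r x : ℂ) * e i x + t x‖ ≤ 2 * Y i :=
    fun x hx i => (hF x hx).2.2.2.2.2.2.2 i
  have hd : ∀ x ∈ F, ∀ i, i ≠ 0 → D i ≤ ‖e 0 x - e i x‖ ∧ ‖e 0 x - e i x‖ ≤ 2 * D i :=
    fun x hx i hi => (hF x hx).2.2.2.2.2.1 i hi
  have hY0 := hY 0
  have hY1 := hY 1
  have hY2 := hY 2
  have hD1 := hD 1
  have hD2 := hD 2
  have h10 : (1 : Fin 3) ≠ 0 := by decide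
  have h20 : (2 : Fin 3) ≠ 0 := by decide
  -- upper and lower bounds for the differences of the images
  have hnφ : ∀ x ∈ F, ∀ i, ‖e 0 (φ x) - e i (φ x)‖ =
      ‖e 0 x - e i x‖ / (‖(r x : ℂ) * e 0 x + t x‖ * ‖(r x : ℂ) * e i x + t x‖) := by
    intro x hx i
    rw [hsubφ x hx i, norm_div, norm_mul]
  have hup : ∀ x ∈ F, ∀ i, i ≠ 0 → ‖e 0 (φ x) - e i (φ x)‖ ≤ 2 * D i / (Y 0 * Y i) := by
    intro x hx i hi
    rw [hnφ x hx i]
    have h1 := hd x hx i hi
    have h2 := hy x hx 0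
    have h3 := hy x hx i
    exact div_le_div₀ (by have := hD i; positivity) h1.2 (mul_pos hY0 (hY i))
      (mul_le_mul h2.1 h3.1 (hY i).le (norm_nonneg _))
  have hlo : ∀ x ∈ F, ∀ i, i ≠ 0 → D i / (4 * (Y 0 * Y i)) ≤ ‖e 0 (φ x) - e i (φ x)‖ := by
    intro x hx i hi
    rw [hnφ x hx i]
    have h1 := hd x hx i hi
    have h2 := hy x hx 0
    have h3 := hy x hx i
    refine div_le_div₀ (norm_nonneg _) h1.1 (mul_pos (hY0.trans_le h2.1) ((hY i).trans_le h3.1)) ?_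
    calc ‖(r x : ℂ) * e 0 x + t x‖ * ‖(r x : ℂ) * e i x + t x‖ ≤ (2 * Y 0) * (2 * Y i) :=
          mul_le_mul h2.2 h3.2 (norm_nonneg _) (by positivity)
      _ = 4 * (Y 0 * Y i) := by ring
  set A' := 16 * A * (Y 0 * Y 1 * Y 2) with hA'
  have hlcφ : ∀ x ∈ F, ∃ g : ℤ[X], IsMin 3 g (φ x) ∧ lc g ≤ A' ∧ 1 ≤ lc g := by
    intro x hx
    obtain ⟨g, hg1, hg2⟩ := (hmob K 3 x (f x) (p x) (q x) (r x) (t x) (by norm_num) hK3 (hF x hx).1
      (hF x hx).2.2.2.2.2.2.1.1).2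
    refine ⟨g, hg1, ?_, (hmin K 3 (φ x) g (by norm_num) hK3 hg1).2.2.2.1⟩
    rw [hg2, prod_three e]
    have h1 := (hF x hx).2.2.2.2.1
    have h0 : 0 ≤ lc (f x) := abs_nonneg _
    calc lc (f x) * (‖(r x : ℂ) * e 0 x + t x‖ * ‖(r x : ℂ) * e 1 x + t x‖ *
          ‖(r x : ℂ) * e 2 x + t x‖) ≤ (2 * A) * ((2 * Y 0) * (2 * Y 1) * (2 * Y 2)) := by
          refine mul_le_mul h1 ?_ (by positivity) (by positivity)
          refine mul_le_mul ?_ (hy x hx 2).2 (norm_nonneg _) (by positivity)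
          exact mul_le_mul (hy x hx 0).2 (hy x hx 1).2 (norm_nonneg _) (by positivity)
      _ = A' := by rw [hA']; ring
  have hA'1 : 1 ≤ A' := by
    obtain ⟨g, _, h1, h2⟩ := hlcφ x₀ hx₀
    exact h2.trans h1
  have hZ := (hF x₀ hx₀).2.2.2.2.2.2.1
  have hd' : ∀ i, i ≠ 0 → (1 / 8 : ℝ) ≤ 2 * D i / (Y 0 * Y i) := by
    intro i hi
    have h1 := hZ.2.2.2.1 i hi
    have h2 := (hd x₀ hx₀ i hi).2
    have h3 : Y 0 * Y i ≤ ‖(r x₀ : ℂ) * e 0 x₀ + t x₀‖ * ‖(r x₀ : ℂ) * e i x₀ + t x₀‖ :=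
      mul_le_mul (hy x₀ hx₀ 0).1 (hy x₀ hx₀ i).1 (hY i).le (norm_nonneg _)
    rw [le_div_iff₀ (mul_pos hY0 (hY i))]
    simp only at h1
    linarith
  -- the number of images
  have himg : ((F.image φ).card : ℝ) ≤ Cp * A' ^ 2 * (2 * D 1 / (Y 0 * Y 1)) * (2 * D 2 / (Y 0 * Y 2)) := by
    refine hpk K (F.image φ) (fun x' i => e i x') A' _ _ hA'1 (hd' 1 h10) (hd' 2 h20) ?_ ?_ ?_
    · rcases he with he | he
      · exact Or.inl fun x _ => he x
      · exact Or.inr fun x _ => ⟨he.1 x, he.2 x⟩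
    · intro x' hx'
      obtain ⟨x, hx, rfl⟩ := Finset.mem_image.mp hx'
      have hz := (hF x hx).2.2.2.2.2.2.1
      refine ⟨?_, ?_, hup x hx 1 h10, hup x hx 2 h20⟩
      · rw [heφ]; exact hz.2.1
      · rw [heφ]; exact hz.2.2.1
    · intro x' hx' z' hz' hne
      obtain ⟨x, hx, rfl⟩ := Finset.mem_image.mp hx'
      obtain ⟨z, hz, rfl⟩ := Finset.mem_image.mp hz'
      obtain ⟨g, hg1, hg2, hg3⟩ := hlcφ x hx
      obtain ⟨g', hg1', hg2', hg3'⟩ := hlcφ z hz
      have h1 := hsep K 3 (φ x) (φ z) g g' hK3 hg1 hg1' hne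
      rw [← Equiv.prod_comp e] at h1
      refine h1.trans ?_
      refine mul_le_mul_of_nonneg_right ?_ (Finset.prod_nonneg fun i _ => norm_nonneg _)
      rw [pow_two]
      exact mul_le_mul hg2 hg2' (by linarith) (by linarith)
  -- the fibres
  have hfib : ∀ j, j ≠ 0 → ∀ x' ∈ F.image φ, ((F.filter (fun x => φ x = x')).card : ℝ) ≤
      24 * (1 + 4 / D j) * (2 * n + 1) := by
    intro j hj x' hx'
    set G := F.filter (fun x => φ x = x') with hG
    set ψ : K → ℤ × ℤ := fun x => (p x, r x) with hψ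
    obtain ⟨x₁, hx₁, hx₁'⟩ := Finset.mem_image.mp hx'
    have hDj := hD j
    have hYj := hY j
    have hpos : 0 < ‖e 0 x' - e j x'‖ := by
      rw [← hx₁']
      refine lt_of_lt_of_le ?_ (hlo x₁ hx₁ j hj)
      positivity
    have hne : e 0 x' ≠ e j x' := by
      intro h
      rw [h, sub_self, norm_zero] at hpos
      exact lt_irrefl _ hpos
    have hS : ((G.image ψ).card : ℝ) ≤ 24 * (1 + 4 / D j) := by
      refine (hcnt (e 0 x') (e j x') hne (1 / Y 0) (1 / Y j) (by positivity) (by positivity)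
        (G.image ψ) ?_).trans ?_
      · intro v hv
        obtain ⟨x, hx, rfl⟩ := Finset.mem_image.mp hv
        obtain ⟨hxF, hxx⟩ := Finset.mem_filter.mp hx
        have hdet := (hF x hxF).2.2.2.2.2.2.1.1
        have hdir : ∀ i, ‖(p x : ℂ) - e i x' * r x‖ ≤ 1 / Y i := by
          intro i
          rw [← hxx, heφ, mob_dir _ _ _ _ _ (hdetC x hxF) (heden x hxF i), norm_div, norm_one]
          exact one_div_le_one_div_of_le (hY i) (hy x hxF i).1
        refine ⟨⟨t x, -q x, ?_⟩, hdir 0, hdir j⟩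
        show t x * p x + -q x * r x = 1
        linear_combination hdet
      · have h1 : 1 / Y 0 * (1 / Y j) / ‖e 0 x' - e j x'‖ ≤ 4 / D j := by
          rw [div_le_iff₀ hpos, ← hx₁']
          calc 1 / Y 0 * (1 / Y j) = 4 / D j * (D j / (4 * (Y 0 * Y j))) := by field_simp
            _ ≤ 4 / D j * ‖e 0 (φ x₁) - e j (φ x₁)‖ :=
                mul_le_mul_of_nonneg_left (hlo x₁ hx₁ j hj) (by positivity)
        linarith
    have hGψ : G.card ≤ (2 * n + 1) * (G.image ψ).card := by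
      refine Finset.card_le_mul_card_image G (2 * n + 1) fun v hv => ?_
      obtain ⟨x₂, hx₂, rfl⟩ := Finset.mem_image.mp hv
      set H := G.filter (fun x => ψ x = ψ x₂) with hH
      have hx₂F := (Finset.mem_filter.mp hx₂).1
      have hk : ∀ x : K, ∃ k : ℤ, x ∈ H → x = x₂ + k := by
        intro x
        by_cases hx : x ∈ H
        · obtain ⟨hxG, hxψ⟩ := Finset.mem_filter.mp hx
          obtain ⟨hxF, hxx⟩ := Finset.mem_filter.mp hxG
          have hpp : p x = p x₂ := congrArg Prod.fst hxψ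
          have hrr : r x = r x₂ := congrArg Prod.snd hxψ
          have hxx₂ := (Finset.mem_filter.mp hx₂).2
          have hdet := (hF x hxF).2.2.2.2.2.2.1.1
          have hdn := hden x hxF
          have hxx' : φ x₂ = φ x := hxx₂.trans hxx.symm
          rw [hφ] at hxx'
          simp only at hxx'
          rw [hpp, hrr] at hxx'
          rw [hpp, hrr] at hdet
          rw [hrr] at hdn
          obtain ⟨k, hk⟩ := fiber_int x₂ x (p x₂) (q x₂) (q x) (r x₂) (t x₂) (t x)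
            (hF x₂ hx₂F).2.2.2.2.2.2.1.1 hdet (hden x₂ hx₂F) hdn hxx'
          exact ⟨k, fun _ => hk⟩
        · exact ⟨0, fun h => absurd h hx⟩
      choose k hk using hk
      have hinj : Set.InjOn k H := by
        intro x hx y hy' hxy
        rw [hk x hx, hk y hy', hxy]
      rw [← Finset.card_image_of_injOn hinj]
      refine card_window (H.image k) n (e 0 x₂).re fun m hm => ?_
      obtain ⟨x, hx, rfl⟩ := Finset.mem_image.mp hm
      have hxF := (Finset.mem_filter.mp (Finset.mem_filter.mp hx).1).1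
      have h1 : e 0 x = e 0 x₂ + (k x : ℂ) := by
        conv_lhs => rw [hk x hx]
        rw [map_add, map_intCast]
      have h2 := (hF x hxF).2.2.1
      have h3 := Complex.abs_re_le_norm (e 0 x)
      rw [h1, Complex.add_re, Complex.intCast_re] at h3
      rw [h1] at h2
      exact h3.trans h2
    have h1 : (G.card : ℝ) ≤ (2 * n + 1) * ((G.image ψ).card : ℝ) := by exact_mod_cast hGψ
    refine h1.trans ?_
    rw [mul_comm]
    exact mul_le_mul_of_nonneg_right hS (by positivity)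
  -- the total number
  have hcard : ∀ j, j ≠ 0 → (F.card : ℝ) ≤
      (Cp * A' ^ 2 * (2 * D 1 / (Y 0 * Y 1)) * (2 * D 2 / (Y 0 * Y 2))) *
        (24 * (1 + 4 / D j) * (2 * n + 1)) := by
    intro j hj
    have hDj := hD j
    rw [Finset.card_eq_sum_card_image φ F]
    push_cast
    refine (Finset.sum_le_sum fun x' hx' => hfib j hj x' hx').trans ?_
    rw [Finset.sum_const, nsmul_eq_mul]
    exact mul_le_mul_of_nonneg_right himg (by positivity)
  set Dm := max (D 1) (D 2) with hDm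
  have hDmpos : 0 < Dm := lt_max_of_lt_left hD1
  have hcardm : (F.card : ℝ) ≤
      (Cp * A' ^ 2 * (2 * D 1 / (Y 0 * Y 1)) * (2 * D 2 / (Y 0 * Y 2))) *
        (24 * (1 + 4 / Dm) * (2 * n + 1)) := by
    rcases max_choice (D 1) (D 2) with h | h
    · have := hcard 1 h10
      rw [hDm, h]
      exact this
    · have := hcard 2 h20
      rw [hDm, h]
      exact this
  -- `M`
  have hMm := hmin K 3 x₀ (f x₀) (by norm_num) hK3 (hF x₀ hx₀).1
  have hMT := (hF x₀ hx₀).2.1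
  rw [hMm.2.2.1, prod_three e] at hMT
  have hlc0 := (hF x₀ hx₀).2.2.2.1
  have hlcpos : 0 < lc (f x₀) := hA.trans_le hlc0
  have m0 : 1 ≤ max 1 ‖e 0 x₀‖ := le_max_left _ _
  have m1 : 1 ≤ max 1 ‖e 1 x₀‖ := le_max_left _ _
  have m2 : 1 ≤ max 1 ‖e 2 x₀‖ := le_max_left _ _
  have hAT : ∀ u : ℝ, 0 ≤ u → u ≤ max 1 ‖e 0 x₀‖ * max 1 ‖e 1 x₀‖ * max 1 ‖e 2 x₀‖ → A * u ≤ T := by
    intro u hu0 hu
    refine (mul_le_mul hlc0 hu hu0 hlcpos.le).trans hMT
  have hA1 : A ≤ T := by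
    have := hAT 1 zero_le_one (one_le_mul_of_one_le_of_one_le (one_le_mul_of_one_le_of_one_le m0 m1) m2)
    rwa [mul_one] at this
  have hAe1 : A * ‖e 1 x₀‖ ≤ T := by
    refine hAT _ (norm_nonneg _) ?_
    calc ‖e 1 x₀‖ ≤ max 1 ‖e 1 x₀‖ := le_max_right _ _
      _ = 1 * max 1 ‖e 1 x₀‖ * 1 := by ring
      _ ≤ max 1 ‖e 0 x₀‖ * max 1 ‖e 1 x₀‖ * max 1 ‖e 2 x₀‖ := by
        refine mul_le_mul (mul_le_mul_of_nonneg_right m0 (by positivity)) m2 zero_le_one (by positivity)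
  have hAe2 : A * ‖e 2 x₀‖ ≤ T := by
    refine hAT _ (norm_nonneg _) ?_
    calc ‖e 2 x₀‖ ≤ max 1 ‖e 2 x₀‖ := le_max_right _ _
      _ = 1 * max 1 ‖e 2 x₀‖ := by ring
      _ ≤ max 1 ‖e 0 x₀‖ * max 1 ‖e 1 x₀‖ * max 1 ‖e 2 x₀‖ :=
        mul_le_mul_of_nonneg_right (one_le_mul_of_one_le_of_one_le m0 m1) (by positivity)
  have hn0 := (hF x₀ hx₀).2.2.1
  have hADj : ∀ j, j ≠ 0 → A * ‖e j x₀‖ ≤ T → A * D j ≤ (n + 1) * T := by
    intro j hj h
    have h1 := (hd x₀ hx₀ j hj).1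
    have h2 := norm_sub_le (e 0 x₀) (e j x₀)
    have h3 : D j ≤ n + ‖e j x₀‖ := by linarith
    calc A * D j ≤ A * (n + ‖e j x₀‖) := mul_le_mul_of_nonneg_left h3 hA.le
      _ = n * A + A * ‖e j x₀‖ := by ring
      _ ≤ n * T + T := add_le_add (mul_le_mul_of_nonneg_left hA1 (Nat.cast_nonneg n)) h
      _ = (n + 1) * T := by ring
  have hADm : A * Dm ≤ (n + 1) * T := by
    rcases max_choice (D 1) (D 2) with h | h
    · rw [hDm, h]; exact hADj 1 h10 hAe1
    · rw [hDm, h]; exact hADj 2 h20 hAe2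
  have hY12 : Y 1 * Y 2 ≤ 16 * Dm := by
    have h1 := hZ.2.2.2.2
    simp only at h1
    have h2 : Y 1 * Y 2 ≤ ‖(r x₀ : ℂ) * e 1 x₀ + t x₀‖ * ‖(r x₀ : ℂ) * e 2 x₀ + t x₀‖ :=
      mul_le_mul (hy x₀ hx₀ 1).1 (hy x₀ hx₀ 2).1 hY2.le (norm_nonneg _)
    have h3 : max ‖e 0 x₀ - e 1 x₀‖ ‖e 0 x₀ - e 2 x₀‖ ≤ 2 * Dm := by
      refine max_le ((hd x₀ hx₀ 1 h10).2.trans ?_) ((hd x₀ hx₀ 2 h20).2.trans ?_)
      · have := le_max_left (D 1) (D 2)
        linarith
      · have := le_max_right (D 1) (D 2)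
        linarith
    linarith
  -- the terms
  have hterm : ∀ x ∈ F, 1 / dv (f x) (e 0 x) ≤ 1 / (A * (D 1 * D 2)) := by
    intro x hx
    have h1 := (hmin K 3 x (f x) (by norm_num) hK3 (hF x hx).1).2.2.2.2 (e 0)
    rw [h1]
    refine one_div_le_one_div_of_le (by positivity) ?_
    have h2 := prod_two e (fun τ => ‖e 0 x - τ x‖)
    rw [h2]
    have h3 := (hF x hx).2.2.2.1
    refine mul_le_mul h3 ?_ (by positivity) (hA.le.trans h3)
    exact mul_le_mul (hd x hx 1 h10).1 (hd x hx 2 h20).1 hD2.le (norm_nonneg _)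
  refine (Finset.sum_le_sum hterm).trans ?_
  rw [Finset.sum_const, nsmul_eq_mul]
  calc (F.card : ℝ) * (1 / (A * (D 1 * D 2)))
      ≤ ((Cp * A' ^ 2 * (2 * D 1 / (Y 0 * Y 1)) * (2 * D 2 / (Y 0 * Y 2))) *
        (24 * (1 + 4 / Dm) * (2 * n + 1))) * (1 / (A * (D 1 * D 2))) :=
        mul_le_mul_of_nonneg_right hcardm (by positivity)
    _ = (Cp * 1024 * 24 * (2 * n + 1)) * (A * ((Y 1 * Y 2) * (1 + 4 / Dm))) := by
        rw [hA']
        field_simp
        ring
    _ ≤ (Cp * 1024 * 24 * (2 * n + 1)) * (A * ((16 * Dm) * (1 + 4 / Dm))) := by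
        refine mul_le_mul_of_nonneg_left ?_ (by positivity)
        refine mul_le_mul_of_nonneg_left ?_ hA.le
        exact mul_le_mul_of_nonneg_right hY12 (by positivity)
    _ = (Cp * 1024 * 24 * (2 * n + 1)) * 16 * (A * Dm + 4 * A) := by
        field_simp
    _ ≤ (Cp * 1024 * 24 * (2 * n + 1)) * 16 * ((n + 5) * T) := by
        refine mul_le_mul_of_nonneg_left ?_ (by positivity)
        linarith
    _ = Cp * 1024 * 24 * (2 * n + 1) * 16 * (n + 5) * T := by ring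

end Pool.Agent.Q149.V
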